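import Pool.Agent.W622.BK.Stm

/-!
# BK-PRJ (for helper622): a projection of `E` adapted to `X`
-/

set_option autoImplicit false

namespace Pool.Agent.W904.BK

open Module

universe u

theorem t_PRJ : Pool.Agent.W622.BK.S_PRJ.{u} := by
  intro k _ E _ _ _ X
  obtain ⟨C, hC⟩ := Submodule.exists_isCompl (Submodule.dualCoannihilator X)
  set π : E →ₗ[k] E := C.subtype ∘ₗ Submodule.projectionOnto C _ hC.symm with hπ
  have h1 : ∀ e, π (π e) = π e := by
    intro e
    simp [hπ]
  have h2 : ∀ e ∈ Submodule.dualCoannihilator X, π e = 0 := by
    intro e he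
    have := Submodule.projectionOnto_apply_right hC.symm ⟨e, he⟩
    show ((Submodule.projectionOnto C _ hC.symm e : C) : E) = 0
    rw [show Submodule.projectionOnto C _ hC.symm e = 0 from this]
    rfl
  have h3 : ∀ e, e - π e ∈ Submodule.dualCoannihilator X := by
    intro e
    have : e - π e ∈ LinearMap.ker (Submodule.projectionOnto C _ hC.symm) := by
      rw [LinearMap.mem_ker, map_sub]
      have : Submodule.projectionOnto C _ hC.symm (π e) =
          Submodule.projectionOnto C _ hC.symm e :=
        Submodule.projectionOnto_apply_left hC.symm (Submodule.projectionOnto C _ hC.symm e)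
      rw [this, sub_self]
    rwa [Submodule.ker_projectionOnto] at this
  refine ⟨π, fun f hf => ?_, fun f => ?_, h1⟩
  · refine LinearMap.ext fun e => ?_
    have := (Submodule.mem_dualCoannihilator _).1 (h3 e) f hf
    rw [map_sub, sub_eq_zero] at this
    exact this.symm
  · have h4 : f ∘ₗ π ∈ (Submodule.dualCoannihilator X).dualAnnihilator := by
      rw [Submodule.mem_dualAnnihilator]
      intro e he
      rw [LinearMap.comp_apply, h2 e he, map_zero]
    rwa [Subspace.dualCoannihilator_dualAnnihilator_eq] at h4

end Pool.Agent.W904.BK
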